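import Pool.Agent.Helper15.FC.St5

/-!
# Project FC (MP_16cbc0_nt), module CRM: Ramanujan sums are multiplicative; prime powers
-/

set_option autoImplicit false

namespace Pool.Agent.Helper16.FC

open Pool.Agent.Helper15.FC Polynomial

section aux

variable {F : Type} [Field F]

open scoped Classical in
private theorem mob_one : mob (1 : F[X]) = 1 := by
  unfold mob
  rw [if_pos squarefree_one, UniqueFactorizationMonoid.normalizedFactors_one,
    Multiset.card_zero, pow_zero]

open scoped Classical in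
private theorem mob_mul {f g : F[X]} (hf : f ≠ 0) (hg : g ≠ 0) (h : IsCoprime f g) :
    mob (f * g) = mob f * mob g := by
  unfold mob
  have h1 : Squarefree (f * g) ↔ Squarefree f ∧ Squarefree g := by
    rw [squarefree_mul_iff]
    exact ⟨fun h2 => h2.2, fun h2 => ⟨h.isRelPrime, h2⟩⟩
  by_cases h2 : Squarefree f
  · by_cases h3 : Squarefree g
    · rw [if_pos (h1.2 ⟨h2, h3⟩), if_pos h2, if_pos h3,
        UniqueFactorizationMonoid.normalizedFactors_mul hf hg, Multiset.card_add, pow_add]
    · rw [if_neg (fun h4 => h3 (h1.1 h4).2), if_neg h3, mul_zero]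
  · rw [if_neg (fun h4 => h2 (h1.1 h4).1), if_neg h2, zero_mul]

open scoped Classical in
private theorem mob_irr {P : F[X]} (hP : Irreducible P) : mob P = -1 := by
  unfold mob
  rw [if_pos hP.squarefree, UniqueFactorizationMonoid.normalizedFactors_irreducible hP,
    Multiset.card_singleton, pow_one]

open scoped Classical in
private theorem mob_pow {P : F[X]} (hP : Irreducible P) (k : ℕ) : mob (P ^ (k + 2)) = 0 := by
  unfold mob
  rw [if_neg]
  intro h
  have h1 := h P ⟨P ^ k, by ring⟩
  exact hP.not_isUnit h1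

variable [Fintype F]

/-- the terms of the Ramanujan sum -/
private noncomputable def gg (r h : F[X]) (e : F[X]) : ℤ :=
  open scoped Classical in
  if e ∣ h then mob (r / e) * (Fintype.card F : ℤ) ^ e.natDegree else 0

private theorem cram_eq (r h : F[X]) : cram r h = ∑ e ∈ Dv r, gg r h e := by
  unfold cram gg
  rw [Finset.sum_filter]

private theorem cast_eq (r h : F[X]) : ((cram r h : ℤ) : ℝ) = ∑ e ∈ Dv r, ((gg r h e : ℤ) : ℝ) := by
  rw [cram_eq, Int.cast_sum]

private theorem dv_zero_deg {r a : F[X]} (hr : r.Monic) (ha : a ∈ Dv r) :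
    a.Monic ∧ a ∣ r := (mem_Dv hr.ne_zero).1 ha

end aux

theorem hCRM (hDVM : StDVM) : StCRM := by
  classical
  intro F _ _ h
  obtain ⟨hmul, hpow⟩ := hDVM F
  refine ⟨?_, ?_, ?_⟩
  · have h1 : ((cram (1 : F[X]) h : ℤ) : ℝ) = ((1 : ℤ) : ℝ) := by
      rw [cast_eq]
      have h2 := hpow (X : F[X]) 0 (fun e => ((gg (1 : F[X]) h e : ℤ) : ℝ)) monic_X irreducible_X
      rw [pow_zero] at h2
      rw [h2]
      rw [zero_add, Finset.sum_range_one, pow_zero]
      unfold gg
      rw [if_pos (one_dvd h), natDegree_one, pow_zero, mul_one]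
      have h3 : (1 : F[X]) / 1 = 1 := EuclideanDomain.div_one 1
      rw [h3, mob_one]
    exact_mod_cast h1
  · intro r s hr hs hrs
    have h1 : ((cram (r * s) h : ℤ) : ℝ) = ((cram r h * cram s h : ℤ) : ℝ) := by
      rw [cast_eq, Int.cast_mul, cast_eq, cast_eq,
        hmul r s (fun e => ((gg (r * s) h e : ℤ) : ℝ)) hr hs hrs, Finset.sum_mul_sum]
      refine Finset.sum_congr rfl fun a ha => Finset.sum_congr rfl fun b hb => ?_
      obtain ⟨ham, r', hr'⟩ := dv_zero_deg hr ha
      obtain ⟨hbm, s', hs'⟩ := dv_zero_deg hs hb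
      have hr0 : r ≠ 0 := hr.ne_zero
      have hs0 : s ≠ 0 := hs.ne_zero
      have hr'0 : r' ≠ 0 := by rintro rfl; exact hr0 (by rw [hr', mul_zero])
      have hs'0 : s' ≠ 0 := by rintro rfl; exact hs0 (by rw [hs', mul_zero])
      have hab : IsCoprime a b := hrs.of_isCoprime_of_dvd_left ⟨r', hr'⟩ |>.of_isCoprime_of_dvd_right
        ⟨s', hs'⟩
      have hrs' : IsCoprime r' s' := hrs.of_isCoprime_of_dvd_left ⟨a, by rw [hr', mul_comm]⟩
        |>.of_isCoprime_of_dvd_right ⟨b, by rw [hs', mul_comm]⟩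
      have hd1 : r / a = r' := by
        rw [hr']; exact mul_div_cancel_left₀ r' ham.ne_zero
      have hd2 : s / b = s' := by
        rw [hs']; exact mul_div_cancel_left₀ s' hbm.ne_zero
      have hd3 : r * s / (a * b) = r' * s' := by
        have : r * s = a * b * (r' * s') := by rw [hr', hs']; ring
        rw [this]
        exact mul_div_cancel_left₀ _ (mul_ne_zero ham.ne_zero hbm.ne_zero)
      have hdvd : a * b ∣ h ↔ a ∣ h ∧ b ∣ h :=
        ⟨fun h2 => ⟨dvd_trans (dvd_mul_right a b) h2, dvd_trans (dvd_mul_left b a) h2⟩,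
          fun h2 => hab.mul_dvd h2.1 h2.2⟩
      rw [← Int.cast_mul]
      congr 1
      unfold gg
      rw [hd1, hd2, hd3, ham.natDegree_mul hbm, mob_mul hr'0 hs'0 hrs', pow_add]
      by_cases h2 : a ∣ h
      · by_cases h3 : b ∣ h
        · rw [if_pos (hdvd.2 ⟨h2, h3⟩), if_pos h2, if_pos h3]; ring
        · rw [if_neg (fun h4 => h3 (hdvd.1 h4).2), if_neg h3, mul_zero]
      · rw [if_neg (fun h4 => h2 (hdvd.1 h4).1), if_neg h2, zero_mul]
    exact_mod_cast h1
  · intro P a hP hPi
    have key : cram (P ^ (a + 1)) h =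
        (if P ^ (a + 1) ∣ h then (Fintype.card F : ℤ) ^ (P.natDegree * (a + 1)) else 0) -
        (if P ^ a ∣ h then (Fintype.card F : ℤ) ^ (P.natDegree * a) else 0) := by
      have h1 : ((cram (P ^ (a + 1)) h : ℤ) : ℝ) =
          ((((if P ^ (a + 1) ∣ h then (Fintype.card F : ℤ) ^ (P.natDegree * (a + 1)) else 0) -
        (if P ^ a ∣ h then (Fintype.card F : ℤ) ^ (P.natDegree * a) else 0) : ℤ)) : ℝ) := by
        rw [cast_eq, hpow P (a + 1) (fun e => ((gg (P ^ (a + 1)) h e : ℤ) : ℝ)) hP hPi,
          Finset.sum_range_succ, Finset.sum_range_succ]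
        have hzero : ∑ i ∈ Finset.range a, ((gg (P ^ (a + 1)) h (P ^ i) : ℤ) : ℝ) = 0 := by
          refine Finset.sum_eq_zero fun i hi => ?_
          rw [Finset.mem_range] at hi
          unfold gg
          have h3 : P ^ (a + 1) / P ^ i = P ^ ((a - 1 - i) + 2) := by
            have h4 : P ^ (a + 1) = P ^ i * P ^ ((a - 1 - i) + 2) := by
              rw [← pow_add]; congr 1; omega
            rw [h4]
            exact mul_div_cancel_left₀ _ (pow_ne_zero _ hP.ne_zero)
          rw [h3, mob_pow hPi]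
          simp
        have ha1 : gg (P ^ (a + 1)) h (P ^ (a + 1)) =
            (if P ^ (a + 1) ∣ h then (Fintype.card F : ℤ) ^ (P.natDegree * (a + 1)) else 0) := by
          unfold gg
          rw [EuclideanDomain.div_self (pow_ne_zero _ hP.ne_zero), mob_one, hP.natDegree_pow,
            one_mul, mul_comm (a + 1) P.natDegree]
        have ha0 : gg (P ^ (a + 1)) h (P ^ a) =
            -(if P ^ a ∣ h then (Fintype.card F : ℤ) ^ (P.natDegree * a) else 0) := by
          unfold gg
          have h3 : P ^ (a + 1) / P ^ a = P := by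
            rw [pow_succ]
            exact mul_div_cancel_left₀ _ (pow_ne_zero _ hP.ne_zero)
          rw [h3, mob_irr hPi, hP.natDegree_pow, mul_comm a P.natDegree]
          split_ifs <;> ring
        rw [hzero, ha1, ha0]
        push_cast
        ring
      exact_mod_cast h1
    refine ⟨fun h1 => ?_, fun h1 h2 => ?_, fun h1 => ?_⟩
    · rw [key, if_pos h1, if_pos (dvd_trans (pow_dvd_pow P (Nat.le_succ a)) h1)]
    · rw [key, if_neg h2, if_pos h1]; ring
    · rw [key, if_neg (fun h2 => h1 (dvd_trans (pow_dvd_pow P (Nat.le_succ a)) h2)), if_neg h1]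
      ring

end Pool.Agent.Helper16.FC
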