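import Pool.Agent.Helper15.FC.St1

/-!
# Project FC (MP_16cbc0_nt), module UB: the Stepanov-Bombieri bound with parameters
-/

set_option autoImplicit false

namespace Pool.Agent.Helper16.FC

open Pool.Agent.Helper15.FC Polynomial

section aux

variable {L : Type} [Field L] {b : ℕ}

private theorem pow_mem_Vj (hVB : StVB) (y : Fin b → PowerSeries L) (l : ℕ) (u : PowerSeries L)
    (hu : u ∈ Vj y l) (n : ℕ) : u ^ n ∈ Vj y (l * n) := by
  obtain ⟨hmul, -, -, hC, -, -, -⟩ := hVB L b y
  induction n with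
  | zero =>
    have h := hC 0 1
    rw [map_one] at h
    simpa using h
  | succ n ih =>
    have h := hmul _ _ _ _ ih hu
    rw [pow_succ, Nat.mul_succ]
    exact h

private theorem prod_mem_Vj (hVB : StVB) (y : Fin b → PowerSeries L) {ι : Type} [DecidableEq ι]
    (S : Finset ι) (u : ι → PowerSeries L) (d : ι → ℕ) (hu : ∀ i ∈ S, u i ∈ Vj y (d i)) :
    ∏ i ∈ S, u i ∈ Vj y (∑ i ∈ S, d i) := by
  obtain ⟨hmul, -, -, hC, -, -, -⟩ := hVB L b y
  induction S using Finset.induction_on with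
  | empty =>
    have h := hC 0 1
    rw [map_one] at h
    simpa using h
  | insert a S ha ih =>
    rw [Finset.prod_insert ha, Finset.sum_insert ha]
    exact hmul _ _ _ _ (hu a (Finset.mem_insert_self a S))
      (ih fun i hi => hu i (Finset.mem_insert_of_mem hi))

/-- the values of the polynomials of degree `≤ m` at the substituted point lie in `V_m` -/
private theorem ev_cy_mem (hVB : StVB) (y : Fin b → PowerSeries L)
    (c : Matrix (Fin b) (Fin b) L) (m : ℕ) (Φ : MvPolynomial (Option (Fin b)) L)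
    (hΦ : Φ.totalDegree ≤ m) : ev (cy c y) Φ ∈ Vj y m := by
  classical
  obtain ⟨hmul, hmono, hX, hC, hy, -, -⟩ := hVB L b y
  have hpt : ∀ o : Option (Fin b), pt (cy c y) o ∈ Vj y 1 := by
    intro o
    cases o with
    | none =>
      have h := hX 1
      rw [pow_one] at h
      exact h
    | some i =>
      change ∑ j, PowerSeries.C (c i j) * y j ∈ Vj y 1
      refine Submodule.sum_mem _ fun j _ => ?_
      have h := hmul 0 1 _ _ (hC 0 (c i j)) (hy j)
      rwa [zero_add] at h
  rw [MvPolynomial.as_sum Φ, map_sum]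
  refine Submodule.sum_mem _ fun d hd => ?_
  have h1 : ev (cy c y) (MvPolynomial.monomial d (MvPolynomial.coeff d Φ)) =
      PowerSeries.C (MvPolynomial.coeff d Φ) * ∏ o ∈ d.support, pt (cy c y) o ^ (d o) := by
    unfold ev
    rw [MvPolynomial.aeval_monomial]
    rfl
  rw [h1]
  have h2 : ∏ o ∈ d.support, pt (cy c y) o ^ (d o) ∈ Vj y (∑ o ∈ d.support, d o) := by
    refine prod_mem_Vj hVB y _ _ _ fun o _ => ?_
    have h := pow_mem_Vj hVB y 1 _ (hpt o) (d o)
    rwa [one_mul] at h
  have h3 := hmul 0 _ _ _ (hC 0 (MvPolynomial.coeff d Φ)) h2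
  refine hmono _ m ?_ h3
  rw [zero_add]
  exact le_trans (MvPolynomial.le_totalDegree hd) hΦ

end aux

theorem hUB (hVB : StVB) (hDAT : StDAT) (hDEG : StDEG) (hORD : StORD) (hINJ : StINJ)
    (hKER : StKER) (hMOD : StMOD) (hRDC : StRDC) (hDVD : StDVD) : StUB := by
  classical
  intro k L _ _ _ _ _ b s XX y c e h C' P l m hSys hcard hs he hce hP2 hdim hhl hlt
  -- the characteristic
  obtain ⟨p, hpL⟩ := CharP.exists L
  obtain ⟨n, hp, hn⟩ := FiniteField.card L p
  haveI : Fact p.Prime := ⟨hp⟩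
  have hPt : ∃ t : ℕ, P = p ^ t := by
    have h1 : P ∣ p ^ (n : ℕ) := by
      rw [← hn, hP2]
      exact dvd_pow_self P (by norm_num)
    obtain ⟨t, -, ht⟩ := (Nat.dvd_prime_pow hp).1 h1
    exact ⟨t, ht⟩
  obtain ⟨t, hPt⟩ := hPt
  have hP1 : 1 ≤ P := by omega
  obtain ⟨hmul, hmono, hX, hC, hy, hfin, hRR⟩ := hVB L b (upL L y)
  haveI := hfin l
  haveI := hfin m
  haveI := hfin (l * P + m)
  haveI : CharP (PowerSeries L) p :=
    charP_of_injective_algebraMap (R := L) (A := PowerSeries L)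
      (FaithfulSMul.algebraMap_injective L (PowerSeries L)) p
  -- the basis
  let B := Module.finBasis L (Vj (upL L y) m)
  let f : Fin (Module.finrank L (Vj (upL L y) m)) → PowerSeries L := fun i => (B i : PowerSeries L)
  have hfLI : LinearIndependent L f :=
    B.linearIndependent.map' (Submodule.subtype _) (Submodule.ker_subtype _)
  have hfV : ∀ i, f i ∈ Vj (upL L y) m := fun i => (B i).2
  have hΦ : ∀ i, ∃ Φ : MvPolynomial (Option (Fin b)) L, Φ.totalDegree ≤ m ∧
      ev (upL L y) Φ = f i := by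
    intro i
    have h1 := hfV i
    unfold Vj at h1
    obtain ⟨Φ, hΦ1, hΦ2⟩ := Submodule.mem_map.1 h1
    exact ⟨Φ, (MvPolynomial.mem_restrictTotalDegree _ _ _).1 hΦ1, hΦ2⟩
  choose Φ hΦd hΦf using hΦ
  let ψ : Fin (Module.finrank L (Vj (upL L y) m)) → PowerSeries L :=
    fun i => ev (cy (c.map (algebraMap k L)) (upL L y)) (Φ i)
  have hψV : ∀ i, ψ i ∈ Vj (upL L y) m := fun i =>
    ev_cy_mem hVB (upL L y) _ m (Φ i) (hΦd i)
  -- the pigeonhole principle
  obtain ⟨S, hSV, hS0, hSsum⟩ := hKER L p t (Module.finrank L (Vj (upL L y) m))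
    (Vj (upL L y) l) (Vj (upL L y) (l * P + m)) ψ
    (by
      intro u hu i
      rw [← hPt]
      exact hmul _ _ _ _ (pow_mem_Vj hVB _ _ _ hu P) (hψV i)) hlt
  rw [← hPt] at hSsum
  -- the auxiliary function
  let Θ : PowerSeries L := ∑ i, S i * f i ^ P
  have hΘV : Θ ∈ Vj (upL L y) (l + m * P) :=
    Submodule.sum_mem _ fun i _ => hmul _ _ _ _ (hSV i) (pow_mem_Vj hVB _ _ _ (hfV i) P)
  have hΘ0 : Θ ≠ 0 := by
    have h1 := hINJ L p t (Module.finrank L (Vj (upL L y) m)) f S hfLI ?_ hS0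
    · rw [← hPt] at h1
      exact h1
    · intro a ha hdvd
      rw [← hPt] at hdvd
      have h2 : ∑ i, a i • S i ∈ Vj (upL L y) l :=
        Submodule.sum_mem _ fun i _ => Submodule.smul_mem _ _ (hSV i)
      exact hORD L b (upL L y) h C' hdim l _ h2 ha (dvd_trans (pow_dvd_pow _ (by omega)) hdvd)
  have hΘR : Θ ∈ RR (upL L y) := (hRR Θ).2 ⟨_, hΘV⟩
  -- vanishing
  let A : Finset L := Finset.univ.filter
    (fun a => NmX XX (Fintype.card k) a s = c.map (algebraMap k L))
  have hvan : ∀ a ∈ A, Cg (upL L y) a Θ 0 := by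
    intro a ha
    have ha' : NmX XX (Fintype.card k) a s = c.map (algebraMap k L) := (Finset.mem_filter.1 ha).2
    refine hRDC k L b s XX y c a e hSys hcard hs he hce ha' Θ P hΘR hP1 ?_
    have h1 : Θ ^ P = ∑ i, S i ^ P * f i ^ Fintype.card L := by
      change (∑ i, S i * f i ^ P) ^ P = _
      have h2 : (∑ i, S i * f i ^ P) ^ P = ∑ i, (S i * f i ^ P) ^ P := by
        rw [hPt]
        exact sum_pow_char_pow _ _ _ _
      rw [h2]
      refine Finset.sum_congr rfl fun i _ => ?_
      rw [mul_pow, ← pow_mul, hP2, sq]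
    have h3 : ∀ i, ∃ g ∈ RR (upL L y), f i ^ Fintype.card L - ψ i =
        (PowerSeries.X - PowerSeries.C a) * g := by
      intro i
      have h4 := hMOD k L b s XX y c a hSys hcard ha' (Φ i)
      rw [hΦf] at h4
      exact h4
    choose g hg1 hg2 using h3
    refine ⟨∑ i, S i ^ P * g i, ?_, ?_⟩
    · refine Subalgebra.sum_mem _ fun i _ => Subalgebra.mul_mem _ ?_ (hg1 i)
      exact Subalgebra.pow_mem _ ((hRR (S i)).2 ⟨l, hSV i⟩) P
    · rw [sub_zero, h1, Finset.mul_sum]
      have h5 : ∑ i, S i ^ P * f i ^ Fintype.card L =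
          ∑ i, S i ^ P * f i ^ Fintype.card L - ∑ i, S i ^ P * ψ i := by
        rw [hSsum, sub_zero]
      rw [h5, ← Finset.sum_sub_distrib]
      refine Finset.sum_congr rfl fun i _ => ?_
      rw [← mul_sub, hg2 i]
      ring
  obtain ⟨g, hgR, hgΘ⟩ := hDVD L b (upL L y) Θ A hΘR hvan
  -- the system over `L`
  have hSysL : Sys (Fintype.card k) (XX.map (fun q => q.map (algebraMap k L))) (upL L y) := by
    refine ⟨fun i => ?_, fun i j => ?_⟩
    · have h1 := congrArg (PowerSeries.map (algebraMap k L)) (hSys.1 i)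
      rw [map_pow, map_sum] at h1
      change (PowerSeries.map (algebraMap k L) (y i)) ^ Fintype.card k = _
      rw [h1]
      refine Finset.sum_congr rfl fun j _ => ?_
      rw [map_mul]
      change _ = (((XX i j).map (algebraMap k L) : L[X]) : PowerSeries L) *
        PowerSeries.map (algebraMap k L) (y j)
      rw [Polynomial.polynomial_map_coe]
    · exact le_trans Polynomial.natDegree_map_le (hSys.2 i j)
  obtain ⟨I, D, C, hD⟩ := hDAT L b (Fintype.card k) _ (upL L y) Fintype.one_lt_card hSysL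
  have hfinal := hDEG L b (Fintype.card k) (upL L y) I D C hD (l + m * P) Θ g
    (∏ a ∈ A, (X - Polynomial.C a)) hΘV hΘ0 hgR hgΘ
  rw [Polynomial.natDegree_finset_prod_X_sub_C_eq_card] at hfinal
  have hcardA : Nat.card {a : L // NmX XX (Fintype.card k) a s = c.map (algebraMap k L)} =
      A.card := by
    rw [Nat.card_eq_fintype_card, Fintype.card_subtype]
  rw [hcardA]
  exact hfinal

end Pool.Agent.Helper16.FC
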